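import Pool.Agent.Lib.MP_b0cbe6_al.Main

/-!
# MP_b0cbe6_al: equal degree multisets, abelian and non-abelian Sylow 2-subgroups

The degree multiset is stated literally, through irreducible complex characters: `Irr G` is the set of the characters
`g ↦ tr ρ(g)` of the irreducible matrix representations `ρ : G → M_n(ℂ)`. Two finite groups have the same degree
multiset when there is a bijection of `Irr G` and `Irr H` which preserves the value at `1`.
-/

set_option autoImplicit false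

namespace Pool.Agent.Results.MP_b0cbe6_al.EqualDegrees

/-- The set of the irreducible complex characters of `G`: the functions `g ↦ tr ρ(g)`, where `ρ : G → M_n(ℂ)`, `n > 0`, is a
multiplicative map with `ρ 1 = 1` such that the only subspaces of `ℂ^n` invariant under all `ρ g` are `0` and `ℂ^n`. -/
def Irr (G : Type) [Group G] : Set (G → ℂ) :=
  {χ | ∃ n : ℕ, 0 < n ∧ ∃ ρ : G →* Matrix (Fin n) (Fin n) ℂ,
    (∀ W : Submodule ℂ (Fin n → ℂ), (∀ g : G, ∀ w ∈ W, (ρ g).mulVec w ∈ W) → W = ⊥ ∨ W = ⊤) ∧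
      ∀ g : G, χ g = (ρ g).trace}

section

variable {G H : Type} [Group G] [Group H]

/-- Linear extension of a function on the group to the group algebra. -/
noncomputable def ext (χ : H → ℂ) : MonoidAlgebra ℂ H →ₗ[ℂ] ℂ :=
  (Finsupp.lift ℂ ℂ H χ).comp (MonoidAlgebra.coeffLinearEquiv ℂ).toLinearMap

omit [Group H] in
theorem ext_single (χ : H → ℂ) (h : H) (c : ℂ) : ext χ (MonoidAlgebra.single h c) = c * χ h := by
  unfold ext
  simp [Finsupp.lift_apply, MonoidAlgebra.coeff_single, Finsupp.sum_single_index]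

/-- Transport of a function along an isomorphism of the group algebras. -/
noncomputable def tr (φ : MonoidAlgebra ℂ G ≃ₐ[ℂ] MonoidAlgebra ℂ H) (χ : H → ℂ) : G → ℂ :=
  fun g => ext χ (φ (MonoidAlgebra.single g 1))

theorem ext_tr (φ : MonoidAlgebra ℂ G ≃ₐ[ℂ] MonoidAlgebra ℂ H) (χ : H → ℂ) (a : MonoidAlgebra ℂ G) :
    ext (tr φ χ) a = ext χ (φ a) := by
  induction a using MonoidAlgebra.induction_linear with
  | zero => simp
  | add x y hx hy => rw [map_add, map_add, map_add, hx, hy]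
  | single g r =>
    rw [ext_single]
    have h : (MonoidAlgebra.single g r : MonoidAlgebra ℂ G) = r • MonoidAlgebra.single g 1 := by
      rw [MonoidAlgebra.smul_single, smul_eq_mul, mul_one]
    rw [h, map_smul, map_smul, smul_eq_mul]
    rfl

theorem tr_tr (φ : MonoidAlgebra ℂ G ≃ₐ[ℂ] MonoidAlgebra ℂ H) (χ : H → ℂ) :
    tr φ.symm (tr φ χ) = χ := by
  funext h
  unfold tr
  have := ext_tr φ χ (φ.symm (MonoidAlgebra.single h 1))
  unfold tr at this
  rw [this, AlgEquiv.apply_symm_apply, ext_single, one_mul]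

theorem tr_one (φ : MonoidAlgebra ℂ G ≃ₐ[ℂ] MonoidAlgebra ℂ H) (χ : H → ℂ) : tr φ χ 1 = χ 1 := by
  unfold tr
  have h : (MonoidAlgebra.single (1 : G) (1 : ℂ) : MonoidAlgebra ℂ G) = 1 := rfl
  have h' : (1 : MonoidAlgebra ℂ H) = MonoidAlgebra.single (1 : H) (1 : ℂ) := rfl
  rw [h, map_one, h', ext_single, one_mul]

theorem tr_mem (φ : MonoidAlgebra ℂ G ≃ₐ[ℂ] MonoidAlgebra ℂ H) {χ : H → ℂ} (hχ : χ ∈ Irr H) :
    tr φ χ ∈ Irr G := by
  obtain ⟨n, hn, ρ, hirr, htr⟩ := hχ
  set Φ : MonoidAlgebra ℂ H →ₐ[ℂ] Matrix (Fin n) (Fin n) ℂ := MonoidAlgebra.lift ℂ _ H ρ with hΦ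
  have hΦs : ∀ (h : H) (c : ℂ), Φ (MonoidAlgebra.single h c) = c • ρ h := by
    intro h c
    rw [hΦ, MonoidAlgebra.lift_single]
  have htrace : ∀ a : MonoidAlgebra ℂ H, (Φ a).trace = ext χ a := by
    intro a
    induction a using MonoidAlgebra.induction_linear with
    | zero => simp
    | add x y hx hy => rw [map_add, map_add, Matrix.trace_add, hx, hy]
    | single h r => rw [hΦs, ext_single, Matrix.trace_smul, htr, smul_eq_mul]
  let ρ' : G →* Matrix (Fin n) (Fin n) ℂ :=
    ((Φ : MonoidAlgebra ℂ H →* Matrix (Fin n) (Fin n) ℂ).comp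
      (φ : MonoidAlgebra ℂ G →* MonoidAlgebra ℂ H)).comp (MonoidAlgebra.of ℂ G)
  have hρ' : ∀ g, ρ' g = Φ (φ (MonoidAlgebra.single g 1)) := fun g => rfl
  refine ⟨n, hn, ρ', ?_, ?_⟩
  · intro W hW
    apply hirr W
    have hall : ∀ a : MonoidAlgebra ℂ G, ∀ w ∈ W, (Φ (φ a)).mulVec w ∈ W := by
      intro a
      induction a using MonoidAlgebra.induction_linear with
      | zero =>
        intro w _
        simp
      | add x y hx hy =>
        intro w hw
        rw [map_add, map_add, Matrix.add_mulVec]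
        exact W.add_mem (hx w hw) (hy w hw)
      | single g r =>
        intro w hw
        have h : (MonoidAlgebra.single g r : MonoidAlgebra ℂ G) = r • MonoidAlgebra.single g 1 := by
          rw [MonoidAlgebra.smul_single, smul_eq_mul, mul_one]
        rw [h, map_smul, map_smul, Matrix.smul_mulVec]
        exact W.smul_mem r (hW g w hw)
    intro h w hw
    have := hall (φ.symm (MonoidAlgebra.single h 1)) w hw
    rw [AlgEquiv.apply_symm_apply, hΦs, one_smul] at this
    exact this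
  · intro g
    rw [hρ' g, htrace]
    rfl

/-- Isomorphic group algebras give a bijection of the irreducible characters which preserves the degrees. -/
noncomputable def equivIrr (φ : MonoidAlgebra ℂ G ≃ₐ[ℂ] MonoidAlgebra ℂ H) : Irr G ≃ Irr H where
  toFun χ := ⟨tr φ.symm χ.1, tr_mem φ.symm χ.2⟩
  invFun χ := ⟨tr φ χ.1, tr_mem φ χ.2⟩
  left_inv χ := Subtype.ext (tr_tr φ.symm χ.1)
  right_inv χ := Subtype.ext (tr_tr φ χ.1)

end

/-- There are finite groups `G`, `H` with equal degree multisets (a bijection of the sets of irreducible complex characters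
which preserves the degree `χ(1)`) such that all Sylow 2-subgroups of `G` are abelian and no Sylow 2-subgroup of `H` is. -/
theorem result : ∃ (G H : Type) (_ : Group G) (_ : Finite G) (_ : Group H) (_ : Finite H),
    (∃ e : Irr G ≃ Irr H, ∀ χ : Irr G, (e χ : H → ℂ) 1 = (χ : G → ℂ) 1) ∧
      (∀ P : Sylow 2 G, ∀ x ∈ (P : Subgroup G), ∀ y ∈ (P : Subgroup G), x * y = y * x) ∧
      ∀ Q : Sylow 2 H, ¬ ∀ x ∈ (Q : Subgroup H), ∀ y ∈ (Q : Subgroup H), x * y = y * x := by
  obtain ⟨φ⟩ := Pool.Agent.Lib.MP_b0cbe6_al.alg_iso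
  refine ⟨Pool.Agent.Lib.MP_b0cbe6_al.G1, Pool.Agent.Lib.MP_b0cbe6_al.G2, inferInstance,
    inferInstance, inferInstance, inferInstance, ⟨equivIrr φ, fun χ => tr_one φ.symm χ.1⟩,
    Pool.Agent.Lib.MP_b0cbe6_al.sylow_comm, ?_⟩
  intro Q hQ
  apply Pool.Agent.Lib.MP_b0cbe6_al.sylow_noncomm
  intro Q' x hx y hy
  obtain ⟨e⟩ : Nonempty (Q' ≃* Q) := ⟨Q'.equiv Q⟩
  have h1 : e ⟨x, hx⟩ * e ⟨y, hy⟩ = e ⟨y, hy⟩ * e ⟨x, hx⟩ :=
    Subtype.ext (hQ _ (e ⟨x, hx⟩).2 _ (e ⟨y, hy⟩).2)
  rw [← map_mul, ← map_mul] at h1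
  exact congrArg Subtype.val (e.injective h1)

end Pool.Agent.Results.MP_b0cbe6_al.EqualDegrees
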